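import Mathlib

/-!
The smallest diagonal Ramsey number `R(n)` of a graph with exactly `n` edges is asymptotically
equal to `n / log_2 n`.

Lower bound: a first moment count. If every two-colouring of the edges of `K_N` contains a
monochromatic copy of a graph `G` with `n` edges, then `G` has at most `N` vertices and there are
at most `N ^ N` embeddings, each of which is monochromatic for a `2 * 2 ^ (-n)` fraction of the
colourings, so `2 ^ n ≤ 2 * N ^ N`.

Upper bound: `G` is (a subgraph of) the disjoint union of `m` complete bipartite graphs `K_{a,b}`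
with `a` slightly less than `log_2 n` and `b` a large multiple of `a ^ 2`. Take a maximum packing
`P` of red copies and a maximum packing `Q` of blue copies of `K_{a,b}`. If both leave many
vertices uncovered, then the set `X` missed by `P` is essentially contained in the sides of size
`b` of members of `Q` and vice versa for the set `Y` missed by `Q`. By double counting there is a
member `q` of `Q` (or of `P`) such that many vertices of `Y` send many blue edges to
`q ∩ X`; then `q` can be replaced by two new blue copies of `K_{a,b}` whose small sides lie in `q`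
and whose large sides lie in `Y`, a contradiction.
-/

set_option autoImplicit false

open Finset Filter Asymptotics

namespace Pool.Agent.Results.MP_9bed89_co.Asymptotics

/-- Every colouring of the edges of the complete graph on `N` vertices with two colours contains a
monochromatic copy of `G`. Here `R` is the graph of the edges of the first colour, its complement
`Rᶜ` is the graph of the edges of the second colour, and `G.IsContained R` says that some (not
necessarily induced) subgraph of `R` is isomorphic to `G`. -/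
def Arrows (N : ℕ) {V : Type} (G : SimpleGraph V) : Prop :=
  ∀ R : SimpleGraph (Fin N), G.IsContained R ∨ G.IsContained Rᶜ

/-- The diagonal Ramsey number `r(G, G)`. -/
noncomputable def ramseyNumber {V : Type} (G : SimpleGraph V) : ℕ :=
  sInf {N : ℕ | Arrows N G}

/-- `R(n)`: the smallest diagonal Ramsey number of a graph with exactly `n` edges. -/
noncomputable def minRamsey (n : ℕ) : ℕ :=
  sInf {r : ℕ | ∃ (k : ℕ) (G : SimpleGraph (Fin k)), G.edgeSet.ncard = n ∧ ramseyNumber G = r}

/-! ### Lower bound -/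

/-- Colourings of `E` that are constant on a set `S`. -/
theorem card_const_on {E : Type} [Fintype E] [DecidableEq E] (S : Finset E) (b : Bool) :
    (univ.filter (fun c : E → Bool => ∀ e ∈ S, c e = b)).card * 2 ^ S.card
      = 2 ^ Fintype.card E := by
  classical
  have h1 : (univ.filter (fun c : E → Bool => ∀ e ∈ S, c e = b))
      = Fintype.piFinset (fun e => if e ∈ S then {b} else (univ : Finset Bool)) := by
    ext c
    simp only [mem_filter, mem_univ, true_and, Fintype.mem_piFinset]
    constructor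
    · intro h e
      by_cases he : e ∈ S
      · simp [he, h e he]
      · simp [he]
    · intro h e he
      have := h e
      simpa [he] using this
  rw [h1, Fintype.card_piFinset]
  have h2 : ∀ e : E, (if e ∈ S then ({b} : Finset Bool) else univ).card
      = if e ∈ S then 1 else 2 := by
    intro e
    by_cases he : e ∈ S <;> simp [he]
  simp only [h2]
  rw [Finset.prod_ite]
  simp only [prod_const_one, one_mul, prod_const]
  rw [← pow_add]
  congr 1
  have := Finset.card_filter_add_card_filter_not (s := (univ : Finset E)) (fun e => e ∈ S)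
  have h3 : (univ.filter (fun e => e ∈ S)) = S := by ext; simp
  rw [h3] at this
  rw [add_comm, this, card_univ]

/-- The graph of the pairs with colour `true`. -/
def colGraph {N : ℕ} (c : Sym2 (Fin N) → Bool) : SimpleGraph (Fin N) where
  Adj x y := x ≠ y ∧ c s(x, y) = true
  symm := ⟨fun x y h => ⟨h.1.symm, by rw [Sym2.eq_swap]; exact h.2⟩⟩
  loopless := ⟨fun x h => h.1 rfl⟩

theorem two_pow_le {N k : ℕ} (G : SimpleGraph (Fin k)) (h : Arrows N G) :
    2 ^ G.edgeSet.ncard ≤ 2 * N ^ N := by
  classical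
  set n := G.edgeSet.ncard with hn
  -- `k ≤ N`
  have hkN : k ≤ N := by
    rcases h ⊤ with hf | hf
    · obtain ⟨f⟩ := (hf : Nonempty _)
      simpa using Fintype.card_le_of_injective _ f.injective
    · obtain ⟨f⟩ := (hf : Nonempty _)
      simpa using Fintype.card_le_of_injective _ f.injective
  have hfin : G.edgeSet.Finite := Set.toFinite _
  set E : Finset (Sym2 (Fin k)) := hfin.toFinset with hE
  have hEc : E.card = n := by
    rw [hn, Set.ncard_eq_toFinset_card _ hfin]
  -- the image of the edge set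
  have hcover : (univ : Finset (Sym2 (Fin N) → Bool)) ⊆
      (univ : Finset ((Fin k ↪ Fin N) × Bool)).biUnion
        (fun p => univ.filter (fun c : Sym2 (Fin N) → Bool =>
          ∀ e ∈ E.map p.1.sym2Map, c e = p.2)) := by
    intro c _
    rw [mem_biUnion]
    rcases h (colGraph c) with hf | hf
    · obtain ⟨f⟩ := (hf : Nonempty _)
      refine ⟨(⟨f, f.injective⟩, true), mem_univ _, ?_⟩
      simp only [mem_filter, mem_univ, true_and, Finset.mem_map, forall_exists_index, and_imp]
      rintro e' e he rfl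
      induction e using Sym2.ind with
      | _ x y =>
        have hxy : G.Adj x y := by
          rw [hE] at he
          exact G.mem_edgeSet.1 ((Set.Finite.mem_toFinset hfin).1 he)
        exact (f.toHom.map_adj hxy).2
    · obtain ⟨f⟩ := (hf : Nonempty _)
      refine ⟨(⟨f, f.injective⟩, false), mem_univ _, ?_⟩
      simp only [mem_filter, mem_univ, true_and, Finset.mem_map, forall_exists_index, and_imp]
      rintro e' e he rfl
      induction e using Sym2.ind with
      | _ x y =>
        have hxy : G.Adj x y := by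
          rw [hE] at he
          exact G.mem_edgeSet.1 ((Set.Finite.mem_toFinset hfin).1 he)
        have h1 := f.toHom.map_adj hxy
        rw [SimpleGraph.compl_adj] at h1
        by_contra h2
        apply h1.2
        refine ⟨h1.1, ?_⟩
        simpa using h2
  have h1 := card_le_card hcover
  have h2 := h1.trans card_biUnion_le
  have h3 : ∀ p : (Fin k ↪ Fin N) × Bool,
      (univ.filter (fun c : Sym2 (Fin N) → Bool =>
          ∀ e ∈ E.map p.1.sym2Map, c e = p.2)).card * 2 ^ n = 2 ^ Fintype.card (Sym2 (Fin N)) := by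
    intro p
    have := card_const_on (E.map p.1.sym2Map) p.2
    rwa [card_map, hEc] at this
  have h4 : (univ : Finset (Sym2 (Fin N) → Bool)).card = 2 ^ Fintype.card (Sym2 (Fin N)) := by
    simp
  rw [h4] at h2
  have h5 : 2 ^ Fintype.card (Sym2 (Fin N)) * 2 ^ n
      ≤ (Fintype.card ((Fin k ↪ Fin N) × Bool)) * 2 ^ Fintype.card (Sym2 (Fin N)) := by
    calc 2 ^ Fintype.card (Sym2 (Fin N)) * 2 ^ n
        ≤ (∑ p : (Fin k ↪ Fin N) × Bool, (univ.filter (fun c : Sym2 (Fin N) → Bool =>
          ∀ e ∈ E.map p.1.sym2Map, c e = p.2)).card) * 2 ^ n :=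
          Nat.mul_le_mul_right _ h2
      _ = ∑ p : (Fin k ↪ Fin N) × Bool, 2 ^ Fintype.card (Sym2 (Fin N)) := by
          rw [sum_mul]
          exact sum_congr rfl (fun p _ => h3 p)
      _ = _ := by simp
  have h6 : Fintype.card (Fin k ↪ Fin N) ≤ N ^ N := by
    rw [Fintype.card_embedding_eq]
    simp only [Fintype.card_fin]
    refine (Nat.descFactorial_le_pow N k).trans ?_
    rcases Nat.eq_zero_or_pos N with h0 | h0
    · subst h0
      have : k = 0 := by omega
      subst this
      simp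
    · exact Nat.pow_le_pow_right h0 hkN
  have h7 : (Fintype.card ((Fin k ↪ Fin N) × Bool)) ≤ 2 * N ^ N := by
    rw [Fintype.card_prod, Fintype.card_bool]
    linarith
  have hpos : 0 < 2 ^ Fintype.card (Sym2 (Fin N)) := by positivity
  have h8 : 2 ^ n * 2 ^ Fintype.card (Sym2 (Fin N))
      ≤ (2 * N ^ N) * 2 ^ Fintype.card (Sym2 (Fin N)) := by
    rw [mul_comm]
    exact h5.trans (Nat.mul_le_mul_right _ h7)
  exact Nat.le_of_mul_le_mul_right h8 hpos

/-! ### Upper bound -/

/-- Averaging: some `A ⊆ S` of size `a` has many common neighbours in `T`. -/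
theorem exists_common {V : Type} [DecidableEq V] (r : V → V → Prop) [DecidableRel r]
    (S T : Finset V) (a d : ℕ) (ha : a ≤ S.card)
    (hd : ∀ t ∈ T, d ≤ (S.filter (fun x => r x t)).card) :
    ∃ A ⊆ S, A.card = a ∧
      T.card * d.choose a ≤ (T.filter (fun t => ∀ x ∈ A, r x t)).card * S.card.choose a := by
  classical
  by_contra hcon
  push Not at hcon
  have h1 : ∑ A ∈ S.powersetCard a, (T.filter (fun t => ∀ x ∈ A, r x t)).card
      = ∑ t ∈ T, ((S.filter (fun x => r x t)).powersetCard a).card := by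
    simp only [Finset.card_filter]
    rw [Finset.sum_comm]
    refine sum_congr rfl (fun t _ => ?_)
    rw [← Finset.card_filter]
    congr 1
    ext A
    simp only [mem_filter, mem_powersetCard, Finset.subset_iff]
    constructor
    · rintro ⟨⟨h1, h2⟩, h3⟩
      exact ⟨fun x hx => ⟨h1 hx, h3 x hx⟩, h2⟩
    · rintro ⟨h1, h2⟩
      exact ⟨⟨fun x hx => (h1 hx).1, h2⟩, fun x hx => (h1 hx).2⟩
  have h2 : T.card * d.choose a ≤ ∑ t ∈ T, ((S.filter (fun x => r x t)).powersetCard a).card := by
    calc T.card * d.choose a = ∑ t ∈ T, d.choose a := by simp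
      _ ≤ _ := by
        refine sum_le_sum (fun t ht => ?_)
        rw [card_powersetCard]
        exact Nat.choose_le_choose a (hd t ht)
  have h3 : ∀ A ∈ S.powersetCard a, (T.filter (fun t => ∀ x ∈ A, r x t)).card * S.card.choose a
      < T.card * d.choose a := by
    intro A hA
    rw [mem_powersetCard] at hA
    exact hcon A hA.1 hA.2
  have hne : (S.powersetCard a).Nonempty := powersetCard_nonempty.2 ha
  have h4 := sum_lt_sum_of_nonempty hne h3
  rw [← sum_mul, h1, sum_const, card_powersetCard, smul_eq_mul] at h4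
  have hpos : 0 < S.card.choose a := Nat.choose_pos ha
  have h5 : (∑ t ∈ T, ((S.filter (fun x => r x t)).powersetCard a).card) * S.card.choose a
      < (T.card * d.choose a) * S.card.choose a := by
    rw [mul_comm (T.card * d.choose a)]; exact h4
  exact absurd (Nat.lt_of_mul_lt_mul_right h5) (not_lt.2 h2)

/-- Comparison of binomial coefficients. -/
theorem choose_le (a s d : ℕ) (ha : 1 ≤ a) (had : a ≤ d)
    (h : (s : ℝ) * (2 * a - 1) ≤ 4 * a * (d + 1 - a)) (hs : 0 < s) :
    s.choose a ≤ 2 ^ (a + 1) * d.choose a := by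
  have h1 : (d + 1 - a) ^ a ≤ d.descFactorial a := Nat.pow_sub_le_descFactorial d a
  have h2 : s.descFactorial a ≤ s ^ a := Nat.descFactorial_le_pow s a
  have h3 : (s : ℝ) ^ a ≤ 2 ^ (a + 1) * ((d + 1 - a : ℕ) : ℝ) ^ a := by
    have hcast : ((d + 1 - a : ℕ) : ℝ) = (d : ℝ) + 1 - a := by
      rw [Nat.cast_sub (by omega)]; push_cast; ring
    rw [hcast]
    have ha0 : (0 : ℝ) < a := by exact_mod_cast ha
    have hs0 : (0 : ℝ) < s := by exact_mod_cast hs
    have h4 : (1 : ℝ) + a * (-(1 / (2 * a))) ≤ (1 + (-(1 / (2 * (a : ℝ))))) ^ a := by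
      apply one_add_mul_le_pow
      have : 1 / (2 * (a : ℝ)) ≤ 1 / 2 := by
        apply one_div_le_one_div_of_le (by norm_num)
        have : (1 : ℝ) ≤ a := by exact_mod_cast ha
        linarith
      linarith
    have h5 : (1 : ℝ) + a * (-(1 / (2 * a))) = 1 / 2 := by
      field_simp
      norm_num
    rw [h5] at h4
    have h6 : (s : ℝ) * (1 + (-(1 / (2 * (a : ℝ))))) ≤ 2 * ((d : ℝ) + 1 - a) := by
      have h7 : (s : ℝ) * (1 + (-(1 / (2 * (a : ℝ))))) = (s * (2 * a - 1)) / (2 * a) := by
        field_simp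
        ring
      rw [h7, div_le_iff₀ (by positivity)]
      linarith
    have h8 : (0 : ℝ) ≤ 1 + (-(1 / (2 * (a : ℝ)))) := by
      have : 1 / (2 * (a : ℝ)) ≤ 1 / 2 := by
        apply one_div_le_one_div_of_le (by norm_num)
        have : (1 : ℝ) ≤ a := by exact_mod_cast ha
        linarith
      linarith
    have h9 := pow_le_pow_left₀ (mul_nonneg hs0.le h8) h6 a
    rw [mul_pow, mul_pow] at h9
    have h10 : (s : ℝ) ^ a * (1 / 2) ≤ (s : ℝ) ^ a * (1 + (-(1 / (2 * (a : ℝ))))) ^ a :=
      mul_le_mul_of_nonneg_left h4 (by positivity)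
    rw [pow_succ]
    nlinarith
  have h4 : s ^ a ≤ 2 ^ (a + 1) * (d + 1 - a) ^ a := by exact_mod_cast h3
  have h5 : s.descFactorial a ≤ 2 ^ (a + 1) * d.descFactorial a :=
    h2.trans (h4.trans (Nat.mul_le_mul_left _ h1))
  rw [Nat.descFactorial_eq_factorial_mul_choose, Nat.descFactorial_eq_factorial_mul_choose] at h5
  have h6 : a.factorial * s.choose a ≤ a.factorial * (2 ^ (a + 1) * d.choose a) := by
    calc a.factorial * s.choose a ≤ 2 ^ (a + 1) * (a.factorial * d.choose a) := h5
      _ = _ := by ring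
  exact Nat.le_of_mul_le_mul_left h6 (Nat.factorial_pos a)

/-- A copy of `K_{a,b}` with sides `p.1` and `p.2`. -/
def IsBic {V : Type} (R : SimpleGraph V) (a b : ℕ) (p : Finset V × Finset V) : Prop :=
  p.1.card = a ∧ p.2.card = b ∧ ∀ x ∈ p.1, ∀ y ∈ p.2, R.Adj x y

/-- If many vertices of `T` have almost half of `S` as neighbours, there is a `K_{a,b}` with the
side `a` in `S` and the side `b` in `T`. -/
theorem exists_bic {V : Type} [DecidableEq V] (R : SimpleGraph V) [DecidableRel R.Adj]
    (S T : Finset V) (a b d : ℕ) (ha : 1 ≤ a) (had : a ≤ d) (hdS : d ≤ S.card)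
    (h : (S.card : ℝ) * (2 * a - 1) ≤ 4 * a * (d + 1 - a))
    (hd : ∀ t ∈ T, d ≤ (S.filter (fun x => R.Adj x t)).card)
    (hT : 2 ^ (a + 1) * b ≤ T.card) :
    ∃ p : Finset V × Finset V, IsBic R a b p ∧ p.1 ⊆ S ∧ p.2 ⊆ T := by
  obtain ⟨A, hAS, hAc, hA⟩ := exists_common R.Adj S T a d (had.trans hdS) hd
  have h1 := choose_le a S.card d ha had h (by omega)
  have h2 : b ≤ (T.filter (fun t => ∀ x ∈ A, R.Adj x t)).card := by
    have hpos : 0 < d.choose a := Nat.choose_pos had
    have h3 : (2 ^ (a + 1) * b) * d.choose a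
        ≤ (T.filter (fun t => ∀ x ∈ A, R.Adj x t)).card * (2 ^ (a + 1) * d.choose a) :=
      (Nat.mul_le_mul_right _ hT).trans (hA.trans (Nat.mul_le_mul_left _ h1))
    have h4 : b * (2 ^ (a + 1) * d.choose a)
        ≤ (T.filter (fun t => ∀ x ∈ A, R.Adj x t)).card * (2 ^ (a + 1) * d.choose a) := by
      calc b * (2 ^ (a + 1) * d.choose a) = (2 ^ (a + 1) * b) * d.choose a := by ring
        _ ≤ _ := h3
    exact Nat.le_of_mul_le_mul_right h4 (by positivity)
  obtain ⟨B, hB, hBc⟩ := exists_subset_card_eq h2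
  refine ⟨(A, B), ⟨hAc, hBc, ?_⟩, hAS, ?_⟩
  · intro x hx y hy
    exact (mem_filter.1 (hB hy)).2 x hx
  · intro y hy
    exact (mem_filter.1 (hB hy)).1

/-- A packing of disjoint copies of `K_{a,b}`. -/
def IsPacking {V : Type} [DecidableEq V] (R : SimpleGraph V) (a b : ℕ)
    (P : Finset (Finset V × Finset V)) : Prop :=
  (∀ p ∈ P, IsBic R a b p) ∧ ∀ p ∈ P, ∀ q ∈ P, p ≠ q → Disjoint (p.1 ∪ p.2) (q.1 ∪ q.2)

/-- The vertices covered by a packing. -/
def cov {V : Type} [DecidableEq V] (P : Finset (Finset V × Finset V)) : Finset V :=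
  P.biUnion (fun p => p.1 ∪ p.2)

theorem IsPacking.card_cov {V : Type} [DecidableEq V] {R : SimpleGraph V} {a b : ℕ}
    {P : Finset (Finset V × Finset V)} (hP : IsPacking R a b P) :
    (cov P).card ≤ (a + b) * P.card := by
  unfold cov
  refine card_biUnion_le.trans ?_
  calc ∑ p ∈ P, (p.1 ∪ p.2).card ≤ ∑ p ∈ P, (a + b) := by
        refine sum_le_sum (fun p hp => ?_)
        refine (card_union_le _ _).trans ?_
        rw [(hP.1 p hp).1, (hP.1 p hp).2.1]
    _ = (a + b) * P.card := by rw [sum_const, smul_eq_mul, mul_comm]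

theorem mem_cov {V : Type} [DecidableEq V] {P : Finset (Finset V × Finset V)} {x : V} :
    x ∈ cov P ↔ ∃ p ∈ P, x ∈ p.1 ∨ x ∈ p.2 := by
  simp [cov]

/-- Adding a copy disjoint from the others. -/
theorem IsPacking.insert {V : Type} [DecidableEq V] {R : SimpleGraph V} {a b : ℕ} (ha : 1 ≤ a)
    {P : Finset (Finset V × Finset V)} (hP : IsPacking R a b P) {p : Finset V × Finset V}
    (hp : IsBic R a b p) (hd : ∀ q ∈ P, Disjoint (p.1 ∪ p.2) (q.1 ∪ q.2)) :
    IsPacking R a b (insert p P) ∧ (insert p P).card = P.card + 1 := by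
  refine ⟨⟨?_, ?_⟩, ?_⟩
  · intro q hq
    rcases mem_insert.1 hq with rfl | hq
    · exact hp
    · exact hP.1 q hq
  · intro q hq q' hq' hne
    rcases mem_insert.1 hq with rfl | hq1
    · rcases mem_insert.1 hq' with rfl | hq2
      · exact absurd rfl hne
      · exact hd q' hq2
    · rcases mem_insert.1 hq' with rfl | hq2
      · exact (hd q hq1).symm
      · exact hP.2 q hq1 q' hq2 hne
  · rw [card_insert_of_notMem]
    intro hmem
    have h1 := hd p hmem
    rw [disjoint_self] at h1
    have h2 : p.1 = ∅ := by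
      have : p.1 ⊆ p.1 ∪ p.2 := subset_union_left
      rw [h1] at this
      exact subset_empty.1 this
    have h3 := hp.1
    rw [h2] at h3
    simp at h3
    omega

/-- The augmentation step. -/
theorem augment {V : Type} [DecidableEq V] {R : SimpleGraph V} [DecidableRel R.Adj] {a b : ℕ}
    (ha : 1 ≤ a) {P : Finset (Finset V × Finset V)} (hP : IsPacking R a b P)
    {p : Finset V × Finset V} (hp : p ∈ P) (S T : Finset V) (hS : S ⊆ p.2)
    (hT : ∀ t ∈ T, t ∉ cov P) (hSc : 16 * a ^ 2 ≤ S.card)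
    (hTc : 2 ^ (a + 1) * b + b ≤ T.card)
    (hd : ∀ t ∈ T, (4 * a - 1) * S.card ≤ 8 * a * (S.filter (fun x => R.Adj x t)).card) :
    ∃ P' : Finset (Finset V × Finset V), IsPacking R a b P' ∧ P'.card = P.card + 1 := by
  classical
  -- the lower bound for the degrees
  obtain ⟨d, hd1, hd2⟩ : ∃ d, (4 * a - 1) * S.card ≤ 8 * a * d ∧
      8 * a * d < (4 * a - 1) * S.card + 8 * a := by
    refine ⟨((4 * a - 1) * S.card + (8 * a - 1)) / (8 * a), ?_, ?_⟩
    · have h1 := Nat.div_add_mod ((4 * a - 1) * S.card + (8 * a - 1)) (8 * a)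
      have h2 := Nat.mod_lt ((4 * a - 1) * S.card + (8 * a - 1)) (show 0 < 8 * a by omega)
      omega
    · have h1 := Nat.div_mul_le_self ((4 * a - 1) * S.card + (8 * a - 1)) (8 * a)
      rw [mul_comm] at h1
      omega
  have hdeg : ∀ t ∈ T, d ≤ (S.filter (fun x => R.Adj x t)).card := by
    intro t ht
    have h1 := hd t ht
    have h2 : 8 * a * d < 8 * a * ((S.filter (fun x => R.Adj x t)).card + 1) := by
      calc 8 * a * d < (4 * a - 1) * S.card + 8 * a := hd2
        _ ≤ 8 * a * (S.filter (fun x => R.Adj x t)).card + 8 * a := by omega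
        _ = _ := by ring
    have := Nat.lt_of_mul_lt_mul_left h2
    omega
  have ha' : (1 : ℝ) ≤ a := by exact_mod_cast ha
  have hSc' : 16 * (a : ℝ) ^ 2 ≤ S.card := by exact_mod_cast hSc
  have hd1' : (4 * (a : ℝ) - 1) * S.card ≤ 8 * a * d := by
    have : (((4 * a - 1 : ℕ) : ℝ)) = 4 * (a : ℝ) - 1 := by
      rw [Nat.cast_sub (by omega)]; push_cast; ring
    rw [← this]
    exact_mod_cast hd1
  -- `d` is at least `6 a ^ 2`
  have hdlow : 6 * (a : ℝ) ^ 2 ≤ d := by
    have h1 : (3 * (a : ℝ)) * (16 * a ^ 2) ≤ (4 * (a : ℝ) - 1) * S.card :=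
      mul_le_mul (by linarith) hSc' (by positivity) (by linarith)
    have h2 : 8 * (a : ℝ) * (6 * a ^ 2) ≤ 8 * a * d := by nlinarith
    exact le_of_mul_le_mul_left h2 (by positivity)
  have had : 2 * a ≤ d := by
    have : 2 * (a : ℝ) ≤ d := by nlinarith
    exact_mod_cast this
  have hdS : d ≤ S.card := by
    have hTne : T.Nonempty ∨ b = 0 := by
      rcases Nat.eq_zero_or_pos b with hb | hb
      · exact Or.inr hb
      · left
        rw [← card_pos]
        omega
    have h1 : 8 * a * d < 8 * a * (S.card) := by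
      have h2 : (4 * a - 1) * S.card + 8 * a ≤ 8 * a * S.card := by
        have h3 : (4 * a - 1) * S.card ≤ 4 * a * S.card := Nat.mul_le_mul_right _ (by omega)
        have h4 : 8 * a ≤ 4 * a * S.card := by
          have : 2 ≤ S.card := by nlinarith
          nlinarith
        nlinarith
      omega
    exact (Nat.lt_of_mul_lt_mul_left h1).le
  -- first copy
  obtain ⟨p1, hp1, hp1S, hp1T⟩ := exists_bic R S T a b d ha (by omega) hdS (by nlinarith)
    hdeg (by omega)
  -- second copy
  obtain ⟨p2, hp2, hp2S, hp2T⟩ := exists_bic R (S \ p1.1) (T \ p1.2) a b (d - a) ha (by omega)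
    (by
      rw [card_sdiff_of_subset hp1S, hp1.1]
      omega)
    (by
      rw [card_sdiff_of_subset hp1S, hp1.1, Nat.cast_sub (by omega), Nat.cast_sub (by omega)]
      nlinarith)
    (by
      intro t ht
      have h1 := hdeg t (mem_sdiff.1 ht).1
      have h2 : (S.filter (fun x => R.Adj x t)) ⊆ ((S \ p1.1).filter (fun x => R.Adj x t)) ∪ p1.1 := by
        intro x hx
        rw [mem_filter] at hx
        by_cases hxp : x ∈ p1.1
        · exact mem_union_right _ hxp
        · exact mem_union_left _ (mem_filter.2 ⟨mem_sdiff.2 ⟨hx.1, hxp⟩, hx.2⟩)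
      have h3 := (card_le_card h2).trans (card_union_le _ _)
      rw [hp1.1] at h3
      omega)
    (by
      rw [card_sdiff_of_subset hp1T, hp1.2.1]
      omega)
  -- the new packing
  have hPe : IsPacking R a b (P.erase p) :=
    ⟨fun q hq => hP.1 q (mem_of_mem_erase hq),
      fun q hq q' hq' => hP.2 q (mem_of_mem_erase hq) q' (mem_of_mem_erase hq')⟩
  have hdis : ∀ p' : Finset V × Finset V, p'.1 ⊆ S → p'.2 ⊆ T → ∀ q ∈ P.erase p,
      Disjoint (p'.1 ∪ p'.2) (q.1 ∪ q.2) := by
    intro p' h1 h2 q hq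
    have hq' := mem_erase.1 hq
    rw [Finset.disjoint_left]
    intro x hx hxq
    rcases mem_union.1 hx with hx | hx
    · have h3 := hP.2 p hp q hq'.2 (fun h => hq'.1 h.symm)
      rw [Finset.disjoint_left] at h3
      exact h3 (mem_union_right _ (hS (h1 hx))) hxq
    · apply hT x (h2 hx)
      rw [mem_cov]
      exact ⟨q, hq'.2, by simpa using hxq⟩
  obtain ⟨hI1, hc1⟩ := hPe.insert ha hp1 (hdis p1 hp1S hp1T)
  obtain ⟨hI2, hc2⟩ := hI1.insert ha hp2 (by
    intro q hq
    rcases mem_insert.1 hq with rfl | hq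
    · rw [Finset.disjoint_left]
      intro x hx hxq
      have hST : ∀ z ∈ S, z ∈ T → False := by
        intro z hz hzT
        apply hT z hzT
        rw [mem_cov]
        exact ⟨p, hp, Or.inr (hS hz)⟩
      rcases mem_union.1 hx with hx | hx
      · have h1 := mem_sdiff.1 (hp2S hx)
        rcases mem_union.1 hxq with hxq | hxq
        · exact h1.2 hxq
        · exact hST x h1.1 (hp1T hxq)
      · have h1 := mem_sdiff.1 (hp2T hx)
        rcases mem_union.1 hxq with hxq | hxq
        · exact hST x (hp1S hxq) h1.1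
        · exact h1.2 hxq
    · exact hdis p2 (hp2S.trans sdiff_subset) (hp2T.trans sdiff_subset) q hq)
  refine ⟨_, hI2, ?_⟩
  rw [hc2, hc1, card_erase_of_mem hp]
  have : 0 < P.card := card_pos.2 ⟨p, hp⟩
  omega

/-- A maximum packing. -/
theorem exists_max_packing {V : Type} [Fintype V] [DecidableEq V] (R : SimpleGraph V) (a b : ℕ) :
    ∃ P : Finset (Finset V × Finset V), IsPacking R a b P ∧
      ∀ P' : Finset (Finset V × Finset V), IsPacking R a b P' → P'.card ≤ P.card := by
  classical
  have hne : (univ.filter (fun P : Finset (Finset V × Finset V) => IsPacking R a b P)).Nonempty :=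
    ⟨∅, by simp [IsPacking]⟩
  obtain ⟨P, hP, hmax⟩ := exists_max_image _ (fun P => P.card) hne
  rw [mem_filter] at hP
  exact ⟨P, hP.2, fun P' hP' => hmax P' (by rw [mem_filter]; exact ⟨mem_univ _, hP'⟩)⟩

/-- A set missed by maximum packings in both colours is small. -/
theorem card_inter_lt {V : Type} [Fintype V] [DecidableEq V] {R : SimpleGraph V} {a b : ℕ}
    (ha : 1 ≤ a) {P Q : Finset (Finset V × Finset V)} (hP : IsPacking R a b P)
    (hPmax : ∀ P' : Finset (Finset V × Finset V), IsPacking R a b P' → P'.card ≤ P.card)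
    (hQ : IsPacking Rᶜ a b Q)
    (hQmax : ∀ Q' : Finset (Finset V × Finset V), IsPacking Rᶜ a b Q' → Q'.card ≤ Q.card)
    (W : Finset V) (hWP : ∀ x ∈ W, x ∉ cov P) (hWQ : ∀ x ∈ W, x ∉ cov Q) :
    W.card < 8 * a ^ 2 + 2 ^ (a + 2) * b := by
  classical
  by_contra hcon
  push Not at hcon
  obtain ⟨S, hSW, hSc⟩ := exists_subset_card_eq (show 8 * a ^ 2 ≤ W.card by omega)
  have hT : 2 ^ (a + 2) * b ≤ (W \ S).card := by
    rw [card_sdiff_of_subset hSW]; omega
  set T1 := (W \ S).filter (fun t => 4 * a ^ 2 ≤ (S.filter (fun x => R.Adj x t)).card) with hT1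
  set T2 := (W \ S).filter (fun t => ¬ 4 * a ^ 2 ≤ (S.filter (fun x => R.Adj x t)).card) with hT2
  have hsum : T1.card + T2.card = (W \ S).card := by
    rw [hT1, hT2, card_filter_add_card_filter_not]
  have hdeg2 : ∀ t ∈ T2, 4 * a ^ 2 ≤ (S.filter (fun x => Rᶜ.Adj x t)).card := by
    intro t ht
    rw [hT2, mem_filter, Finset.mem_sdiff] at ht
    have h1 : (S.filter (fun x => R.Adj x t)).card + (S.filter (fun x => ¬ R.Adj x t)).card
        = S.card := card_filter_add_card_filter_not _
    have h2 : S.filter (fun x => ¬ R.Adj x t) = S.filter (fun x => Rᶜ.Adj x t) := by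
      refine filter_congr (fun x hx => ?_)
      rw [SimpleGraph.compl_adj]
      constructor
      · intro h
        exact ⟨fun he => ht.1.2 (he ▸ hx), h⟩
      · exact fun h => h.2
    rw [h2] at h1
    omega
  have hpow : 2 ^ (a + 2) * b = 2 ^ (a + 1) * b + 2 ^ (a + 1) * b := by
    rw [pow_succ 2 (a + 1)]; ring
  have ha' : (1 : ℝ) ≤ a := by exact_mod_cast ha
  have hcond : (S.card : ℝ) * (2 * a - 1) ≤ 4 * a * ((4 * a ^ 2 : ℕ) + 1 - a) := by
    rw [hSc]; push_cast
    nlinarith
  have had : a ≤ 4 * a ^ 2 := by nlinarith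
  have hor : 2 ^ (a + 1) * b ≤ T1.card ∨ 2 ^ (a + 1) * b ≤ T2.card := by omega
  rcases hor with h1 | h1
  · obtain ⟨p, hp, hpS, hpT⟩ := exists_bic R S T1 a b (4 * a ^ 2) ha had (by omega) hcond
      (fun t ht => (mem_filter.1 ht).2) h1
    obtain ⟨h2, h3⟩ := hP.insert ha hp (by
      intro q hq
      rw [Finset.disjoint_left]
      intro x hx hxq
      refine hWP x ?_ (mem_cov.2 ⟨q, hq, by simpa using hxq⟩)
      rcases mem_union.1 hx with hx | hx
      · exact hSW (hpS hx)
      · exact (mem_sdiff.1 (mem_filter.1 (hpT hx)).1).1)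
    have := hPmax _ h2
    omega
  · obtain ⟨p, hp, hpS, hpT⟩ := exists_bic Rᶜ S T2 a b (4 * a ^ 2) ha had (by omega) hcond
      hdeg2 h1
    obtain ⟨h2, h3⟩ := hQ.insert ha hp (by
      intro q hq
      rw [Finset.disjoint_left]
      intro x hx hxq
      refine hWQ x ?_ (mem_cov.2 ⟨q, hq, by simpa using hxq⟩)
      rcases mem_union.1 hx with hx | hx
      · exact hSW (hpS hx)
      · exact (mem_sdiff.1 (mem_filter.1 (hpT hx)).1).1)
    have := hQmax _ h2
    omega

/-- The part of the set `X` that lies in the large sides of members `q` of `Q` with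
`|X ∩ q.2| ≥ s`. -/
def core {V : Type} [DecidableEq V] (Q : Finset (Finset V × Finset V)) (X : Finset V) (s : ℕ) :
    Finset V :=
  (Q.filter (fun q => s ≤ (X ∩ q.2).card)).biUnion (fun q => X ∩ q.2)

theorem card_core {V : Type} [DecidableEq V] {R : SimpleGraph V} {a b : ℕ}
    {Q : Finset (Finset V × Finset V)} (hQ : IsPacking R a b Q) (X : Finset V) (s : ℕ) :
    (X ∩ cov Q).card ≤ (core Q X s).card + (a + s) * Q.card := by
  classical
  have h1 : X ∩ cov Q ⊆ core Q X s ∪ (Q.biUnion (fun q => q.1)) ∪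
      ((Q.filter (fun q => ¬ s ≤ (X ∩ q.2).card)).biUnion (fun q => X ∩ q.2)) := by
    intro x hx
    rw [mem_inter, mem_cov] at hx
    obtain ⟨hxX, q, hq, hx1 | hx2⟩ := hx
    · exact mem_union_left _ (mem_union_right _ (mem_biUnion.2 ⟨q, hq, hx1⟩))
    · by_cases hs : s ≤ (X ∩ q.2).card
      · refine mem_union_left _ (mem_union_left _ ?_)
        exact mem_biUnion.2 ⟨q, mem_filter.2 ⟨hq, hs⟩, mem_inter.2 ⟨hxX, hx2⟩⟩
      · refine mem_union_right _ ?_
        exact mem_biUnion.2 ⟨q, mem_filter.2 ⟨hq, hs⟩, mem_inter.2 ⟨hxX, hx2⟩⟩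
  have h2 : (Q.biUnion (fun q => q.1)).card ≤ a * Q.card := by
    refine card_biUnion_le.trans ?_
    calc ∑ q ∈ Q, q.1.card = ∑ q ∈ Q, a := sum_congr rfl (fun q hq => (hQ.1 q hq).1)
      _ = a * Q.card := by rw [sum_const, smul_eq_mul, mul_comm]
      _ ≤ _ := le_rfl
  have h3 : ((Q.filter (fun q => ¬ s ≤ (X ∩ q.2).card)).biUnion (fun q => X ∩ q.2)).card
      ≤ s * Q.card := by
    refine card_biUnion_le.trans ?_
    calc ∑ q ∈ Q.filter (fun q => ¬ s ≤ (X ∩ q.2).card), (X ∩ q.2).card
        ≤ ∑ q ∈ Q.filter (fun q => ¬ s ≤ (X ∩ q.2).card), s := by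
          refine sum_le_sum (fun q hq => ?_)
          have := (mem_filter.1 hq).2
          omega
      _ = (Q.filter (fun q => ¬ s ≤ (X ∩ q.2).card)).card * s := by rw [sum_const, smul_eq_mul]
      _ ≤ Q.card * s := Nat.mul_le_mul_right _ (card_filter_le _ _)
      _ = s * Q.card := mul_comm _ _
  have h4 := (card_le_card h1).trans ((card_union_le _ _).trans
    (Nat.add_le_add_right (card_union_le _ _) _))
  have h5 : (a + s) * Q.card = a * Q.card + s * Q.card := by ring
  omega

/-- Few edges of the colour of the maximum packing `Q` between `core Q X s` and `Y'`. -/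
theorem count_le {V : Type} [Fintype V] [DecidableEq V] {R : SimpleGraph V} [DecidableRel R.Adj]
    {a b : ℕ} (ha : 1 ≤ a) {Q : Finset (Finset V × Finset V)} (hQ : IsPacking R a b Q)
    (hQmax : ∀ Q' : Finset (Finset V × Finset V), IsPacking R a b Q' → Q'.card ≤ Q.card)
    (X Y : Finset V) (hY : ∀ y ∈ Y, y ∉ cov Q) :
    8 * a * ∑ y ∈ Y, ((core Q X (16 * a ^ 2)).filter (fun x => R.Adj x y)).card
      ≤ (4 * a - 1) * ((core Q X (16 * a ^ 2)).card * Y.card)
        + 8 * a * ((2 ^ (a + 1) * b + b) * (core Q X (16 * a ^ 2)).card) := by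
  classical
  set J := Q.filter (fun q => 16 * a ^ 2 ≤ (X ∩ q.2).card) with hJ
  have hdisj : ∀ q ∈ J, ∀ q' ∈ J, q ≠ q' → Disjoint (X ∩ q.2) (X ∩ q'.2) := by
    intro q hq q' hq' hne
    have h1 := hQ.2 q (mem_filter.1 hq).1 q' (mem_filter.1 hq').1 hne
    exact disjoint_of_subset_left (inter_subset_right.trans subset_union_right)
      (disjoint_of_subset_right (inter_subset_right.trans subset_union_right) h1)
  have hcore : (core Q X (16 * a ^ 2)).card = ∑ q ∈ J, (X ∩ q.2).card := by
    unfold core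
    rw [card_biUnion]
    exact fun q hq q' hq' hne => hdisj q hq q' hq' hne
  have hcoref : ∀ y, ((core Q X (16 * a ^ 2)).filter (fun x => R.Adj x y)).card
      = ∑ q ∈ J, ((X ∩ q.2).filter (fun x => R.Adj x y)).card := by
    intro y
    unfold core
    rw [filter_biUnion, card_biUnion]
    intro q hq q' hq' hne
    exact disjoint_of_subset_left (filter_subset _ _)
      (disjoint_of_subset_right (filter_subset _ _) (hdisj q hq q' hq' hne))
  have hone : ∀ q ∈ J, 8 * a * ∑ y ∈ Y, ((X ∩ q.2).filter (fun x => R.Adj x y)).card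
      ≤ (4 * a - 1) * ((X ∩ q.2).card * Y.card)
        + 8 * a * ((2 ^ (a + 1) * b + b) * (X ∩ q.2).card) := by
    intro q hq
    obtain ⟨hqQ, hqs⟩ := mem_filter.1 hq
    set S := X ∩ q.2 with hS
    set T := Y.filter (fun y => (4 * a - 1) * S.card
      ≤ 8 * a * (S.filter (fun x => R.Adj x y)).card) with hT
    have hTc : T.card < 2 ^ (a + 1) * b + b := by
      by_contra hcon
      push Not at hcon
      obtain ⟨P', hP', hc⟩ := augment ha hQ hqQ S T inter_subset_right
        (fun t ht => hY t (mem_filter.1 ht).1) hqs hcon (fun t ht => (mem_filter.1 ht).2)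
      have := hQmax _ hP'
      omega
    rw [mul_sum]
    calc ∑ y ∈ Y, 8 * a * (S.filter (fun x => R.Adj x y)).card
        ≤ ∑ y ∈ Y, ((4 * a - 1) * S.card + if y ∈ T then 8 * a * S.card else 0) := by
          refine sum_le_sum (fun y hy => ?_)
          by_cases hyT : y ∈ T
          · rw [if_pos hyT]
            have : 8 * a * (S.filter (fun x => R.Adj x y)).card ≤ 8 * a * S.card :=
              Nat.mul_le_mul_left _ (card_filter_le _ _)
            omega
          · rw [if_neg hyT]
            have h1 : ¬ ((4 * a - 1) * S.card ≤ 8 * a * (S.filter (fun x => R.Adj x y)).card) :=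
              fun h => hyT (mem_filter.2 ⟨hy, h⟩)
            omega
      _ = (4 * a - 1) * (S.card * Y.card) + T.card * (8 * a * S.card) := by
          rw [sum_add_distrib, sum_const, smul_eq_mul, ← sum_filter, sum_const, smul_eq_mul]
          have : Y.filter (fun y => y ∈ T) = T := by
            ext y
            simp only [mem_filter]
            exact ⟨fun h => h.2, fun h => ⟨(mem_filter.1 h).1, h⟩⟩
          rw [this]
          ring
      _ ≤ (4 * a - 1) * (S.card * Y.card) + 8 * a * ((2 ^ (a + 1) * b + b) * S.card) := by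
          have : T.card * (8 * a * S.card) ≤ (2 ^ (a + 1) * b + b) * (8 * a * S.card) :=
            Nat.mul_le_mul_right _ hTc.le
          nlinarith
  calc 8 * a * ∑ y ∈ Y, ((core Q X (16 * a ^ 2)).filter (fun x => R.Adj x y)).card
      = ∑ q ∈ J, 8 * a * ∑ y ∈ Y, ((X ∩ q.2).filter (fun x => R.Adj x y)).card := by
        simp only [hcoref]
        rw [sum_comm, mul_sum]
    _ ≤ ∑ q ∈ J, ((4 * a - 1) * ((X ∩ q.2).card * Y.card)
        + 8 * a * ((2 ^ (a + 1) * b + b) * (X ∩ q.2).card)) := sum_le_sum hone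
    _ = _ := by
        rw [sum_add_distrib, ← mul_sum, ← sum_mul, ← hcore, ← mul_sum, ← mul_sum, ← hcore]

/-- The numerical contradiction. -/
theorem final_contra (a b u x y s1 s2 : ℕ) (ha : 1 ≤ a) (hu : 1 ≤ u)
    (hX3 : 8 * a * (3 * u * b) < x) (hY3 : 8 * a * (3 * u * b) < y) (htot : s1 + s2 = x * y)
    (hB : 8 * a * s1 ≤ (4 * a - 1) * (x * y) + 8 * a * ((2 * u * b + b) * x))
    (hR : 8 * a * s2 ≤ (4 * a - 1) * (y * x) + 8 * a * ((2 * u * b + b) * y)) : False := by
  have hub3 : 2 * u * b + b ≤ 3 * u * b := by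
    have h1 : b ≤ u * b := Nat.le_mul_of_pos_left _ hu
    calc 2 * u * b + b ≤ 2 * u * b + u * b := by omega
      _ = 3 * u * b := by ring
  have h1 : 8 * a * ((2 * u * b + b) * x) ≤ 8 * a * (3 * u * b * x) :=
    Nat.mul_le_mul_left _ (Nat.mul_le_mul_right _ hub3)
  have h2 : 8 * a * ((2 * u * b + b) * y) ≤ 8 * a * (3 * u * b * y) :=
    Nat.mul_le_mul_left _ (Nat.mul_le_mul_right _ hub3)
  rw [mul_comm y x] at hR
  have hS : 8 * a * (x * y) ≤ 2 * ((4 * a - 1) * (x * y)) + 8 * a * (3 * u * b) * (x + y) := by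
    calc 8 * a * (x * y) = 8 * a * s1 + 8 * a * s2 := by rw [← htot]; ring
      _ ≤ ((4 * a - 1) * (x * y) + 8 * a * (3 * u * b * x)) +
          ((4 * a - 1) * (x * y) + 8 * a * (3 * u * b * y)) := by omega
      _ = _ := by ring
  have h8a : 2 * ((4 * a - 1) * (x * y)) + 2 * (x * y) = 8 * a * (x * y) := by
    obtain ⟨a', rfl⟩ : ∃ a', a = a' + 1 := ⟨a - 1, by omega⟩
    rw [show 4 * (a' + 1) - 1 = 4 * a' + 3 by omega]
    ring
  obtain ⟨w, hw⟩ : ∃ w, w = 8 * a * (3 * u * b) := ⟨_, rfl⟩
  rw [← hw] at hS hX3 hY3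
  have h9 : 2 * (x * y) ≤ w * (x + y) := by omega
  have h10 : w * x < y * x := Nat.mul_lt_mul_of_pos_right hY3 (by omega)
  have h11 : w * y < x * y := Nat.mul_lt_mul_of_pos_right hX3 (by omega)
  have h12 : y * x = x * y := mul_comm _ _
  rw [mul_add] at h9
  omega

/-- Large packings in one of the two colours. -/
theorem exists_packing {V : Type} [Fintype V] [DecidableEq V] (R : SimpleGraph V) (a b m : ℕ)
    (ha : 1 ≤ a) (hb : 1 ≤ b) (hV : (b + 18 * a ^ 2) * m + 45 * a ^ 2 * 2 ^ a * b ≤ Fintype.card V) :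
    (∃ P : Finset (Finset V × Finset V), IsPacking R a b P ∧ m ≤ P.card) ∨
    (∃ P : Finset (Finset V × Finset V), IsPacking Rᶜ a b P ∧ m ≤ P.card) := by
  classical
  obtain ⟨P, hP, hPmax⟩ := exists_max_packing R a b
  obtain ⟨Q, hQ, hQmax⟩ := exists_max_packing Rᶜ a b
  by_contra hcon
  push Not at hcon
  have hPm := hcon.1 P hP
  have hQm := hcon.2 Q hQ
  set X := univ \ cov P with hX
  set Y := univ \ cov Q with hY
  have hXY := card_inter_lt ha hP hPmax hQ hQmax (X ∩ Y)
    (fun x hx => (mem_sdiff.1 (mem_inter.1 hx).1).2) (fun x hx => (mem_sdiff.1 (mem_inter.1 hx).2).2)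
  set X' := core Q X (16 * a ^ 2) with hX'
  set Y' := core P Y (16 * a ^ 2) with hY'
  have hXc := hP.card_cov
  have hYc := hQ.card_cov
  have hXc' : X.card + (cov P).card = Fintype.card V := by
    rw [hX, card_sdiff_of_subset (subset_univ _), card_univ]
    have := card_le_univ (cov P)
    omega
  have hYc' : Y.card + (cov Q).card = Fintype.card V := by
    rw [hY, card_sdiff_of_subset (subset_univ _), card_univ]
    have := card_le_univ (cov Q)
    omega
  have hX1 := card_core hQ X (16 * a ^ 2)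
  have hY1 := card_core hP Y (16 * a ^ 2)
  rw [← hX'] at hX1
  rw [← hY'] at hY1
  have hXs : (X ∩ cov Q).card + (X ∩ Y).card = X.card := by
    have : X ∩ Y = X \ (X ∩ cov Q) := by
      ext x; simp [hX, hY]
    rw [this, card_sdiff_of_subset inter_subset_left]
    have := card_le_card (show X ∩ cov Q ⊆ X from inter_subset_left)
    omega
  have hYs : (Y ∩ cov P).card + (X ∩ Y).card = Y.card := by
    have : X ∩ Y = Y \ (Y ∩ cov P) := by
      ext x; simp [hX, hY]; tauto
    rw [this, card_sdiff_of_subset inter_subset_left]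
    have := card_le_card (show Y ∩ cov P ⊆ Y from inter_subset_left)
    omega
  have hpow : 2 ^ (a + 2) = 4 * 2 ^ a := by rw [pow_add]; ring
  have hpow1 : 2 ^ (a + 1) = 2 * 2 ^ a := by rw [pow_succ]; ring
  have h2a : 1 ≤ 2 ^ a := Nat.one_le_two_pow
  obtain ⟨u, hu⟩ : ∃ u, u = 2 ^ a := ⟨_, rfl⟩
  rw [← hu] at hV h2a hpow hpow1
  have hub : 1 ≤ u * b := Nat.mul_pos h2a hb
  -- the two cores are large
  have hlow : ∀ (c d e f : ℕ), c + d = Fintype.card V → d ≤ (a + b) * (m - 1) →
      e + f = c → f < 8 * a ^ 2 + 4 * u * b → 8 * a * (3 * u * b) + (a + 16 * a ^ 2) * m < e := by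
    intro c d e f h1 h2 h3 h4
    have h5 : (a + b) * (m - 1) ≤ (a + b) * m := Nat.mul_le_mul_left _ (by omega)
    have h6 : (b + 18 * a ^ 2) * m + 45 * a ^ 2 * u * b ≤ (a + b) * m + f + e := by omega
    have h7 : a * m ≤ a ^ 2 * m := Nat.mul_le_mul_right _ (by nlinarith)
    have h8 : a * (u * b) ≤ a ^ 2 * (u * b) := Nat.mul_le_mul_right _ (by nlinarith)
    have h9 : u * b ≤ a ^ 2 * (u * b) := Nat.le_mul_of_pos_left _ (by positivity)
    have h10 : a ^ 2 ≤ a ^ 2 * (u * b) := Nat.le_mul_of_pos_right _ hub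
    have h11 : (b + 18 * a ^ 2) * m = b * m + 18 * (a ^ 2 * m) := by ring
    have h12 : 45 * a ^ 2 * u * b = 45 * (a ^ 2 * (u * b)) := by ring
    have h13 : (a + b) * m = a * m + b * m := by ring
    have h14 : 8 * a * (3 * u * b) = 24 * (a * (u * b)) := by ring
    have h15 : (a + 16 * a ^ 2) * m = a * m + 16 * (a ^ 2 * m) := by ring
    have h16 : 4 * u * b = 4 * (u * b) := by ring
    rw [h11, h12, h13] at h6
    rw [h16] at h4
    rw [h14, h15]
    omega
  have hm1 : ∀ c, c < m → (a + b) * c ≤ (a + b) * (m - 1) :=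
    fun c hc => Nat.mul_le_mul_left _ (by omega)
  have hm2 : ∀ c, c < m → (a + 16 * a ^ 2) * c ≤ (a + 16 * a ^ 2) * m :=
    fun c hc => Nat.mul_le_mul_left _ hc.le
  have hXY' : (X ∩ Y).card < 8 * a ^ 2 + 4 * u * b := by
    rw [← hpow]; exact hXY
  have hX2 := hlow _ _ _ _ hXc' (hXc.trans (hm1 _ hPm)) hXs hXY'
  have hY2 := hlow _ _ _ _ hYc' (hYc.trans (hm1 _ hQm)) hYs hXY'
  have hX3 : 8 * a * (3 * u * b) < X'.card := by
    have := hm2 _ hQm
    omega
  have hY3 : 8 * a * (3 * u * b) < Y'.card := by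
    have := hm2 _ hPm
    omega
  -- the cores are inside `X`, `Y`
  have hX'X : X' ⊆ X := by
    intro x hx
    obtain ⟨q, _, hq⟩ := mem_biUnion.1 hx
    exact (mem_inter.1 hq).1
  have hY'Y : Y' ⊆ Y := by
    intro x hx
    obtain ⟨q, _, hq⟩ := mem_biUnion.1 hx
    exact (mem_inter.1 hq).1
  have hX'Q : X' ⊆ cov Q := by
    intro x hx
    obtain ⟨q, hq1, hq⟩ := mem_biUnion.1 hx
    exact mem_cov.2 ⟨q, (mem_filter.1 hq1).1, Or.inr (mem_inter.1 hq).2⟩
  have hB := count_le ha hQ hQmax X Y' (fun y hy => (mem_sdiff.1 (hY'Y hy)).2)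
  have hR := count_le ha hP hPmax Y X' (fun y hy => (mem_sdiff.1 (hX'X hy)).2)
  rw [← hX'] at hB
  rw [← hY'] at hR
  -- total count
  have htot : ∑ y ∈ Y', (X'.filter (fun x => Rᶜ.Adj x y)).card
      + ∑ x ∈ X', (Y'.filter (fun y => R.Adj y x)).card = X'.card * Y'.card := by
    have h1 : ∑ x ∈ X', (Y'.filter (fun y => R.Adj y x)).card
        = ∑ y ∈ Y', (X'.filter (fun x => R.Adj x y)).card := by
      simp only [Finset.card_filter]
      rw [sum_comm]
      refine sum_congr rfl (fun y _ => sum_congr rfl (fun x _ => ?_))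
      simp only [R.adj_comm]
    rw [h1, ← sum_add_distrib]
    have h2 : ∀ y ∈ Y', (X'.filter (fun x => Rᶜ.Adj x y)).card
        + (X'.filter (fun x => R.Adj x y)).card = X'.card := by
      intro y hy
      have h3 : X'.filter (fun x => Rᶜ.Adj x y) = X'.filter (fun x => ¬ R.Adj x y) := by
        refine filter_congr (fun x hx => ?_)
        rw [SimpleGraph.compl_adj]
        constructor
        · exact fun h => h.2
        · intro h
          refine ⟨?_, h⟩
          rintro rfl
          exact (mem_sdiff.1 (hY'Y hy)).2 (hX'Q hx)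
      rw [h3, add_comm, card_filter_add_card_filter_not]
    rw [sum_congr rfl h2, sum_const, smul_eq_mul, mul_comm]
  -- contradiction
  obtain ⟨x, hx⟩ : ∃ x, x = X'.card := ⟨_, rfl⟩
  obtain ⟨y, hy⟩ : ∃ y, y = Y'.card := ⟨_, rfl⟩
  rw [← hx] at hX3 hB hR htot
  rw [← hy] at hY3 hB hR htot
  rw [hpow1] at hB hR
  exact final_contra a b u x y _ _ ha h2a hX3 hY3 htot hB hR

/-- The disjoint union of `m` copies of `K_{a,b}`. -/
def bicUnion (m a b : ℕ) : SimpleGraph (Fin m × (Fin a ⊕ Fin b)) where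
  Adj x y := x.1 = y.1 ∧ (x.2.isLeft ≠ y.2.isLeft)
  symm := ⟨fun x y h => ⟨h.1.symm, h.2.symm⟩⟩
  loopless := ⟨fun x h => h.2 rfl⟩

theorem IsPacking.isContained {V : Type} [DecidableEq V] {R : SimpleGraph V} {a b m : ℕ}
    {P : Finset (Finset V × Finset V)} (hP : IsPacking R a b P) (hm : m ≤ P.card) :
    (bicUnion m a b).IsContained R := by
  obtain ⟨P', hP'P, hP'c⟩ := exists_subset_card_eq hm
  have e0 : Fin m ≃ P' := (Finset.equivFinOfCardEq hP'c).symm
  have hmem : ∀ i, ((e0 i : P') : Finset V × Finset V) ∈ P := fun i => hP'P (e0 i).2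
  have e1 : ∀ i, Fin a ≃ ((e0 i : P') : Finset V × Finset V).1 :=
    fun i => (Finset.equivFinOfCardEq (hP.1 _ (hmem i)).1).symm
  have e2 : ∀ i, Fin b ≃ ((e0 i : P') : Finset V × Finset V).2 :=
    fun i => (Finset.equivFinOfCardEq (hP.1 _ (hmem i)).2.1).symm
  let f : Fin m × (Fin a ⊕ Fin b) → V := fun x =>
    Sum.elim (fun y => ((e1 x.1 y : _) : V)) (fun y => ((e2 x.1 y : _) : V)) x.2
  have hf : ∀ x, f x ∈ ((e0 x.1 : P') : Finset V × Finset V).1 ∪
      ((e0 x.1 : P') : Finset V × Finset V).2 := by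
    rintro ⟨i, x | x⟩
    · exact mem_union_left _ (e1 i x).2
    · exact mem_union_right _ (e2 i x).2
  have hadj : ∀ i, ∀ x : Fin a, ∀ y : Fin b, R.Adj (f (i, Sum.inl x)) (f (i, Sum.inr y)) := by
    intro i x y
    exact (hP.1 _ (hmem i)).2.2 _ (e1 i x).2 _ (e2 i y).2
  have hinj : Function.Injective f := by
    rintro ⟨i, x⟩ ⟨j, y⟩ hxy
    have hij : i = j := by
      by_contra hij
      have h1 : ((e0 i : P') : Finset V × Finset V) ≠ (e0 j : P') := by
        intro h
        exact hij (e0.injective (Subtype.ext h))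
      have h2 := hP.2 _ (hmem i) _ (hmem j) h1
      rw [Finset.disjoint_left] at h2
      refine h2 (hf (i, x)) ?_
      rw [hxy]
      exact hf (j, y)
    subst hij
    rcases x with x | x <;> rcases y with y | y
    · have := (e1 i).injective (Subtype.ext hxy)
      rw [this]
    · exact absurd hxy (hadj i x y).ne
    · exact absurd hxy.symm (hadj i y x).ne
    · have := (e2 i).injective (Subtype.ext hxy)
      rw [this]
  refine ⟨⟨⟨f, ?_⟩, hinj⟩⟩
  rintro ⟨i, x⟩ ⟨j, y⟩ ⟨hij, hxy⟩
  simp only at hij hxy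
  subst hij
  rcases x with x | x <;> rcases y with y | y
  · simp at hxy
  · exact hadj i x y
  · exact (hadj i y x).symm
  · simp at hxy

theorem arrows_bicUnion (m a b N : ℕ) (ha : 1 ≤ a) (hb : 1 ≤ b)
    (hN : (b + 18 * a ^ 2) * m + 45 * a ^ 2 * 2 ^ a * b ≤ N) :
    Arrows N (bicUnion m a b) := by
  intro R
  rcases exists_packing R a b m ha hb (by simpa using hN) with ⟨P, hP, hm⟩ | ⟨P, hP, hm⟩
  · exact Or.inl (hP.isContained hm)
  · exact Or.inr (hP.isContained hm)

/-! ### Existence of Ramsey numbers and reduction to bounds for `minRamsey` -/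

/-- Ramsey's theorem with the bound `2 ^ (s + t)`. -/
theorem ramsey {V : Type} [DecidableEq V] (R : SimpleGraph V) :
    ∀ (s t : ℕ) (A : Finset V), 2 ^ (s + t) ≤ A.card →
      (∃ B ⊆ A, B.card = s ∧ ∀ x ∈ B, ∀ y ∈ B, x ≠ y → R.Adj x y) ∨
      (∃ B ⊆ A, B.card = t ∧ ∀ x ∈ B, ∀ y ∈ B, x ≠ y → Rᶜ.Adj x y) := by
  classical
  intro s
  induction s with
  | zero => intro t A _; exact Or.inl ⟨∅, by simp⟩
  | succ s ihs =>
    intro t
    induction t with
    | zero => intro A _; exact Or.inr ⟨∅, by simp⟩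
    | succ t iht =>
      intro A hA
      have hne : A.Nonempty := by
        rw [← card_pos]
        exact lt_of_lt_of_le (by positivity) hA
      obtain ⟨v, hv⟩ := hne
      set A1 := (A.erase v).filter (fun w => R.Adj v w) with hA1
      set A2 := (A.erase v).filter (fun w => ¬ R.Adj v w) with hA2
      have hc : A1.card + A2.card = A.card - 1 := by
        rw [hA1, hA2, card_filter_add_card_filter_not, card_erase_of_mem hv]
      have hsum : 2 ^ (s + 1 + (t + 1)) = 2 ^ (s + (t + 1)) + 2 ^ (s + 1 + t) := by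
        rw [show s + 1 + (t + 1) = (s + 1 + t) + 1 by ring, show s + (t + 1) = s + 1 + t by ring,
          pow_succ]
        ring
      have hor : 2 ^ (s + (t + 1)) ≤ A1.card ∨ 2 ^ (s + 1 + t) ≤ A2.card := by
        by_contra hcon
        push Not at hcon
        omega
      rcases hor with h1 | h1
      · rcases ihs (t + 1) A1 h1 with ⟨B, hB, hBc, hBa⟩ | ⟨B, hB, hBc, hBa⟩
        · left
          have hvB : v ∉ B := by
            intro hvB
            have := hB hvB
            rw [hA1, mem_filter, mem_erase] at this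
            exact this.1.1 rfl
          refine ⟨insert v B, ?_, ?_, ?_⟩
          · intro x hx
            rcases mem_insert.1 hx with rfl | hx
            · exact hv
            · have := hB hx
              rw [hA1, mem_filter, mem_erase] at this
              exact this.1.2
          · rw [card_insert_of_notMem hvB, hBc]
          · intro x hx y hy hxy
            rcases mem_insert.1 hx with rfl | hx'
            · rcases mem_insert.1 hy with rfl | hy'
              · exact absurd rfl hxy
              · have := hB hy'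
                rw [hA1, mem_filter] at this
                exact this.2
            · rcases mem_insert.1 hy with rfl | hy'
              · have := hB hx'
                rw [hA1, mem_filter] at this
                exact this.2.symm
              · exact hBa x hx' y hy' hxy
        · right
          refine ⟨B, ?_, hBc, hBa⟩
          intro x hx
          have := hB hx
          rw [hA1, mem_filter, mem_erase] at this
          exact this.1.2
      · rcases iht A2 h1 with ⟨B, hB, hBc, hBa⟩ | ⟨B, hB, hBc, hBa⟩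
        · left
          refine ⟨B, ?_, hBc, hBa⟩
          intro x hx
          have := hB hx
          rw [hA2, mem_filter, mem_erase] at this
          exact this.1.2
        · right
          have hvB : v ∉ B := by
            intro hvB
            have := hB hvB
            rw [hA2, mem_filter, mem_erase] at this
            exact this.1.1 rfl
          refine ⟨insert v B, ?_, ?_, ?_⟩
          · intro x hx
            rcases mem_insert.1 hx with rfl | hx
            · exact hv
            · have := hB hx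
              rw [hA2, mem_filter, mem_erase] at this
              exact this.1.2
          · rw [card_insert_of_notMem hvB, hBc]
          · intro x hx y hy hxy
            rcases mem_insert.1 hx with rfl | hx'
            · rcases mem_insert.1 hy with rfl | hy'
              · exact absurd rfl hxy
              · have := hB hy'
                rw [hA2, mem_filter] at this
                rw [SimpleGraph.compl_adj]
                exact ⟨hxy, this.2⟩
            · rcases mem_insert.1 hy with rfl | hy'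
              · have := hB hx'
                rw [hA2, mem_filter] at this
                rw [SimpleGraph.compl_adj]
                exact ⟨hxy, fun h => this.2 h.symm⟩
              · exact hBa x hx' y hy' hxy

theorem arrows_of_contained {N : ℕ} {V W : Type} {G : SimpleGraph V} {H : SimpleGraph W}
    (hGH : G.IsContained H) (h : Arrows N H) : Arrows N G := by
  intro R
  rcases h R with h | h
  · exact Or.inl (hGH.trans h)
  · exact Or.inr (hGH.trans h)

/-- The diagonal Ramsey number of a finite graph exists. -/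
theorem exists_arrows {k : ℕ} (G : SimpleGraph (Fin k)) : ∃ N, Arrows N G := by
  classical
  refine ⟨2 ^ (k + k), ?_⟩
  intro R
  have key : ∀ (Q : SimpleGraph (Fin (2 ^ (k + k)))) (B : Finset (Fin (2 ^ (k + k)))),
      B.card = k → (∀ x ∈ B, ∀ y ∈ B, x ≠ y → Q.Adj x y) → G.IsContained Q := by
    intro Q B hB hQ
    have e : Fin k ≃ B := (Finset.equivFinOfCardEq hB).symm
    refine ⟨⟨⟨fun x => ((e x : B) : Fin (2 ^ (k + k))), ?_⟩, ?_⟩⟩
    · intro x y hxy
      refine hQ _ (e x).2 _ (e y).2 ?_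
      intro h
      exact hxy.ne (e.injective (Subtype.ext h))
    · intro x y hxy
      exact e.injective (Subtype.ext hxy)
  rcases ramsey R k k univ (by simp) with ⟨B, _, hB, hBa⟩ | ⟨B, _, hB, hBa⟩
  · exact Or.inl (key R B hB hBa)
  · exact Or.inr (key Rᶜ B hB hBa)

/-- The explicit upper bound. -/
theorem minRamsey_le (n a b m : ℕ) (ha : 1 ≤ a) (hb : 1 ≤ b) (hn : n ≤ m * (a * b)) :
    (∃ (k : ℕ) (G : SimpleGraph (Fin k)), G.edgeSet.ncard = n) ∧
    minRamsey n ≤ (b + 18 * a ^ 2) * m + 45 * a ^ 2 * 2 ^ a * b := by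
  classical
  obtain ⟨K, ⟨e⟩⟩ : ∃ K, Nonempty (Fin m × (Fin a ⊕ Fin b) ≃ Fin K) :=
    ⟨_, ⟨Fintype.equivFin _⟩⟩
  set H : SimpleGraph (Fin K) := (bicUnion m a b).comap e.symm with hH
  have hcard : m * (a * b) ≤ H.edgeSet.ncard := by
    have hinj : Function.Injective (fun x : Fin m × (Fin a × Fin b) =>
        s(e (x.1, Sum.inl x.2.1), e (x.1, Sum.inr x.2.2))) := by
      rintro ⟨i, x, y⟩ ⟨j, z, w⟩ h
      simp only [Sym2.eq_iff, EmbeddingLike.apply_eq_iff_eq, Prod.mk.injEq, Sum.inl.injEq,
        Sum.inr.injEq, reduceCtorEq, and_false, false_and, or_false] at h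
      obtain ⟨⟨h1, h2⟩, _, h3⟩ := h
      rw [h1, h2, h3]
    have h1 : (Set.range (fun x : Fin m × (Fin a × Fin b) =>
        s(e (x.1, Sum.inl x.2.1), e (x.1, Sum.inr x.2.2)))) ⊆ H.edgeSet := by
      rintro _ ⟨x, rfl⟩
      simp [hH, bicUnion]
    have h2 := Set.ncard_le_ncard h1 (Set.toFinite _)
    rw [← Set.image_univ, Set.ncard_image_of_injective _ hinj, Set.ncard_univ] at h2
    simpa using h2
  obtain ⟨E, hEH, hEn⟩ := Set.exists_subset_card_eq (hn.trans hcard)
  set G : SimpleGraph (Fin K) := SimpleGraph.fromEdgeSet E with hG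
  have hGE : G.edgeSet = E := by
    rw [hG, SimpleGraph.edgeSet_fromEdgeSet]
    ext x
    simp only [Set.mem_sdiff, and_iff_left_iff_imp]
    intro hx
    exact H.not_isDiag_of_mem_edgeSet (hEH hx)
  have hGH : G ≤ H := by
    rw [← SimpleGraph.edgeSet_subset_edgeSet, hGE]
    exact hEH
  have hcont : G.IsContained (bicUnion m a b) := by
    refine ⟨⟨⟨e.symm, ?_⟩, e.symm.injective⟩⟩
    intro x y hxy
    exact hGH hxy
  refine ⟨⟨K, G, by rw [hGE, hEn]⟩, ?_⟩
  have h1 : minRamsey n ≤ ramseyNumber G := Nat.sInf_le ⟨K, G, by rw [hGE, hEn], rfl⟩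
  exact h1.trans (Nat.sInf_le (arrows_of_contained hcont (arrows_bicUnion m a b _ ha hb le_rfl)))

/-- The explicit lower bound. -/
theorem le_minRamsey (n : ℕ) (hn : 2 ≤ n) : ((n : ℝ) - 1) / Real.logb 2 n ≤ minRamsey n := by
  have hne : {r : ℕ | ∃ (k : ℕ) (G : SimpleGraph (Fin k)),
      G.edgeSet.ncard = n ∧ ramseyNumber G = r}.Nonempty := by
    obtain ⟨⟨k, G, hG⟩, _⟩ := minRamsey_le n 1 1 n le_rfl le_rfl (by simp)
    exact ⟨_, k, G, hG, rfl⟩
  obtain ⟨k, G, hG, hr⟩ := Nat.sInf_mem hne
  have hr' : ramseyNumber G = minRamsey n := hr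
  rw [← hr']
  have hA : Arrows (ramseyNumber G) G := Nat.sInf_mem (exists_arrows G)
  have h1 := two_pow_le G hA
  rw [hG] at h1
  obtain ⟨r, hrr⟩ : ∃ r, r = ramseyNumber G := ⟨_, rfl⟩
  rw [← hrr] at h1 ⊢
  have hn1 : (1 : ℝ) < n := by exact_mod_cast (by omega : 1 < n)
  have hlog : 0 < Real.logb 2 n := Real.logb_pos (by norm_num) hn1
  rw [div_le_iff₀ hlog]
  have hr1 : 1 ≤ r := by
    rcases Nat.eq_zero_or_pos r with h0 | h0
    · subst h0
      have : (4 : ℕ) ≤ 2 ^ n := by
        calc 4 = 2 ^ 2 := by norm_num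
          _ ≤ 2 ^ n := Nat.pow_le_pow_right (by norm_num) hn
      simp at h1
      omega
    · exact h0
  have hr1' : (1 : ℝ) ≤ r := by exact_mod_cast hr1
  rcases le_or_gt n r with hnr | hnr
  · have hnr' : (n : ℝ) ≤ r := by exact_mod_cast hnr
    have h2 : (1 : ℝ) ≤ Real.logb 2 n := by
      rw [Real.le_logb_iff_rpow_le (by norm_num) (by linarith)]
      rw [Real.rpow_one]
      exact_mod_cast hn
    nlinarith
  · have h2 : (2 : ℝ) ^ n ≤ 2 * (r : ℝ) ^ r := by exact_mod_cast h1
    have h3 : Real.logb 2 ((2 : ℝ) ^ n) ≤ Real.logb 2 (2 * (r : ℝ) ^ r) :=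
      Real.logb_le_logb_of_le (by norm_num) (by positivity) h2
    rw [Real.logb_pow, Real.logb_mul (by norm_num) (by positivity), Real.logb_pow,
      Real.logb_self_eq_one (by norm_num)] at h3
    have h4 : Real.logb 2 r ≤ Real.logb 2 n :=
      Real.logb_le_logb_of_le (by norm_num) (by linarith) (by exact_mod_cast hnr.le)
    nlinarith

/-! ### Asymptotics -/

/-- The explicit upper bound for the ratio. -/
theorem ratio_le (K : ℕ) (hK : 2 ≤ K) (n : ℕ) (hn : K ≤ Nat.log 2 n) :
    (minRamsey n : ℝ) / (n / Real.logb 2 n) ≤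
      ((K + 18) / (K - 1)) * ((Nat.log 2 n + 1) / Nat.log 2 n)
        + (2 * (46 * K + 18) * K ^ 5) *
          (((Nat.log 2 n / K + 1 : ℕ) : ℝ) ^ 5 / 2 ^ (Nat.log 2 n / K + 1)) := by
  obtain ⟨l, hl⟩ : ∃ l, l = Nat.log 2 n := ⟨_, rfl⟩
  rw [← hl] at hn ⊢
  have hn0 : n ≠ 0 := by
    rintro rfl
    simp at hl
    omega
  have hln : 2 ^ l ≤ n := by rw [hl]; exact Nat.pow_log_le_self 2 hn0
  have hln' : n < 2 ^ (l + 1) := by rw [hl]; exact Nat.lt_pow_succ_log_self (by norm_num) n
  obtain ⟨j, hj⟩ : ∃ j, j = l / K := ⟨_, rfl⟩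
  rw [← hj]
  have hjl : K * j ≤ l := by rw [hj]; exact Nat.mul_div_le l K
  have hjl' : l < K * (j + 1) := by rw [hj]; exact Nat.lt_mul_div_succ l (by omega)
  have hj1 : 1 ≤ j := by
    by_contra hcon
    have : j = 0 := by omega
    subst this
    simp at hjl'
    omega
  have hjl2 : 2 * j ≤ l := (Nat.mul_le_mul_right _ hK).trans hjl
  obtain ⟨a, ha⟩ : ∃ a, a = l - j := ⟨_, rfl⟩
  have ha1 : 1 ≤ a := by omega
  have haj : a + j = l := by omega
  have hK0 : (2 : ℝ) ≤ K := by exact_mod_cast hK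
  -- real versions
  have haR : (1 : ℝ) ≤ a := by exact_mod_cast ha1
  have hlR : (a : ℝ) + j = l := by exact_mod_cast haj
  have hjR : (1 : ℝ) ≤ j := by exact_mod_cast hj1
  have hl1 : (1 : ℝ) ≤ l := by linarith
  have hlow : (l : ℝ) * (K - 1) ≤ a * K := by
    have : (K : ℝ) * j ≤ l := by exact_mod_cast hjl
    nlinarith
  have hnR : (2 : ℝ) ^ l ≤ n := by exact_mod_cast hln
  have hnR' : (n : ℝ) < 2 ^ (l + 1) := by exact_mod_cast hln'
  have hn0R : (0 : ℝ) < n := lt_of_lt_of_le (by positivity) hnR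
  have hlogpos : 0 < Real.logb 2 n := by
    apply Real.logb_pos (by norm_num)
    have : (2 : ℝ) ^ 1 ≤ 2 ^ l := pow_le_pow_right₀ (by norm_num) (by omega)
    linarith
  have hlogle : Real.logb 2 n ≤ l + 1 := by
    have h1 : Real.logb 2 n ≤ Real.logb 2 ((2 : ℝ) ^ (l + 1)) :=
      Real.logb_le_logb_of_le (by norm_num) hn0R hnR'.le
    rw [Real.logb_pow, Real.logb_self_eq_one (by norm_num)] at h1
    push_cast at h1
    linarith
  -- parameters
  have hb1 : 1 ≤ K * a ^ 2 := Nat.mul_pos (by omega) (by positivity)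
  have hm : n ≤ (n / (a * (K * a ^ 2)) + 1) * (a * (K * a ^ 2)) := by
    have := Nat.lt_mul_div_succ n (show 0 < a * (K * a ^ 2) by positivity)
    rw [mul_comm]
    exact this.le
  obtain ⟨_, hbound⟩ := minRamsey_le n a (K * a ^ 2) _ ha1 hb1 hm
  obtain ⟨q, hq⟩ : ∃ q, q = n / (a * (K * a ^ 2)) := ⟨_, rfl⟩
  rw [← hq] at hbound
  have hqR : (q : ℝ) * (K * a ^ 3) ≤ n := by
    have : q * (a * (K * a ^ 2)) ≤ n := by rw [hq]; exact Nat.div_mul_le_self _ _
    have h2 : q * (K * a ^ 3) ≤ n := by
      calc q * (K * a ^ 3) = q * (a * (K * a ^ 2)) := by ring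
        _ ≤ n := this
    exact_mod_cast h2
  have hboundR : (minRamsey n : ℝ) ≤ (K * a ^ 2 + 18 * a ^ 2) * (q + 1)
      + 45 * a ^ 2 * 2 ^ a * (K * a ^ 2) := by exact_mod_cast hbound
  -- main computation
  have hqle : (q : ℝ) ≤ n / (K * a ^ 3) := by
    rw [le_div_iff₀ (by positivity)]; exact hqR
  have h2a : (2 : ℝ) ^ a * 2 ^ j ≤ n := by rw [← pow_add, haj]; exact hnR
  have h2j : (2 : ℝ) ^ j ≤ n := by
    refine le_trans ?_ hnR
    exact pow_le_pow_right₀ (by norm_num) (by omega)
  have hal : (a : ℝ) ≤ l + 1 := by linarith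
  have hljK : (l : ℝ) + 1 ≤ K * (j + 1) := by exact_mod_cast hjl'
  -- first term
  have hT1 : ((K * a ^ 2 + 18 * a ^ 2) * q : ℝ) * ((l + 1) / n)
      ≤ ((K + 18) / (K - 1)) * ((l + 1) / l) := by
    have h1 : ((K * a ^ 2 + 18 * a ^ 2) * q : ℝ) ≤ (K + 18) * n / (K * a) := by
      calc ((K * a ^ 2 + 18 * a ^ 2) * q : ℝ) ≤ (K * a ^ 2 + 18 * a ^ 2) * (n / (K * a ^ 3)) :=
            mul_le_mul_of_nonneg_left hqle (by positivity)
        _ = (K + 18) * n / (K * a) := by
            field_simp
    calc ((K * a ^ 2 + 18 * a ^ 2) * q : ℝ) * ((l + 1) / n)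
        ≤ ((K + 18) * n / (K * a)) * ((l + 1) / n) :=
          mul_le_mul_of_nonneg_right h1 (by positivity)
      _ = (K + 18) * (l + 1) / (K * a) := by
          field_simp
      _ ≤ (K + 18) * (l + 1) / (l * (K - 1)) := by
          apply div_le_div_of_nonneg_left (by positivity)
          · have : (0 : ℝ) < K - 1 := by linarith
            positivity
          · linarith
      _ = _ := by
          have : (K : ℝ) - 1 ≠ 0 := by linarith
          field_simp
  -- second and third term
  have hP : (l + 1 : ℝ) ^ 5 ≤ K ^ 5 * (j + 1) ^ 5 := by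
    rw [← mul_pow]
    exact pow_le_pow_left₀ (by linarith) hljK 5
  have hT2 : ((K * a ^ 2 + 18 * a ^ 2) * 1 : ℝ) * ((l + 1) / n)
      ≤ (K + 18) * (l + 1) ^ 5 / 2 ^ j := by
    have h1 : (a : ℝ) ^ 2 * (l + 1) ≤ (l + 1) ^ 5 := by
      calc (a : ℝ) ^ 2 * (l + 1) ≤ (l + 1) ^ 2 * (l + 1) :=
            mul_le_mul_of_nonneg_right (pow_le_pow_left₀ (by linarith) hal 2) (by linarith)
        _ = (l + 1) ^ 3 := by ring
        _ ≤ (l + 1) ^ 5 := pow_le_pow_right₀ (by linarith) (by norm_num)
    calc ((K * a ^ 2 + 18 * a ^ 2) * 1 : ℝ) * ((l + 1) / n)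
        = (K + 18) * (a ^ 2 * (l + 1)) / n := by field_simp
      _ ≤ (K + 18) * (l + 1) ^ 5 / n := by
          apply div_le_div_of_nonneg_right _ hn0R.le
          exact mul_le_mul_of_nonneg_left h1 (by positivity)
      _ ≤ _ := by
          apply div_le_div_of_nonneg_left (by positivity) (by positivity) h2j
  have hT3 : (45 * a ^ 2 * 2 ^ a * (K * a ^ 2) : ℝ) * ((l + 1) / n)
      ≤ 45 * K * (l + 1) ^ 5 / 2 ^ j := by
    have h1 : (a : ℝ) ^ 4 * (l + 1) ≤ (l + 1) ^ 5 := by
      calc (a : ℝ) ^ 4 * (l + 1) ≤ (l + 1) ^ 4 * (l + 1) :=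
            mul_le_mul_of_nonneg_right (pow_le_pow_left₀ (by linarith) hal 4) (by linarith)
        _ = (l + 1) ^ 5 := by ring
    have h2 : (2 : ℝ) ^ a / n ≤ 1 / 2 ^ j := by
      rw [div_le_div_iff₀ hn0R (by positivity)]
      linarith
    calc (45 * a ^ 2 * 2 ^ a * (K * a ^ 2) : ℝ) * ((l + 1) / n)
        = 45 * K * (a ^ 4 * (l + 1)) * (2 ^ a / n) := by field_simp
      _ ≤ 45 * K * (l + 1) ^ 5 * (1 / 2 ^ j) := by
          apply mul_le_mul _ h2 (by positivity) (by positivity)
          exact mul_le_mul_of_nonneg_left h1 (by positivity)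
      _ = _ := by ring
  calc (minRamsey n : ℝ) / (n / Real.logb 2 n) = minRamsey n * (Real.logb 2 n / n) := by
        field_simp
    _ ≤ minRamsey n * ((l + 1) / n) := by
        apply mul_le_mul_of_nonneg_left _ (Nat.cast_nonneg _)
        exact div_le_div_of_nonneg_right hlogle hn0R.le
    _ ≤ ((K * a ^ 2 + 18 * a ^ 2) * (q + 1) + 45 * a ^ 2 * 2 ^ a * (K * a ^ 2)) * ((l + 1) / n) :=
        mul_le_mul_of_nonneg_right hboundR (by positivity)
    _ = ((K * a ^ 2 + 18 * a ^ 2) * q : ℝ) * ((l + 1) / n)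
        + ((K * a ^ 2 + 18 * a ^ 2) * 1 : ℝ) * ((l + 1) / n)
        + (45 * a ^ 2 * 2 ^ a * (K * a ^ 2) : ℝ) * ((l + 1) / n) := by ring
    _ ≤ ((K + 18) / (K - 1)) * ((l + 1) / l) + (K + 18) * (l + 1) ^ 5 / 2 ^ j
        + 45 * K * (l + 1) ^ 5 / 2 ^ j := add_le_add (add_le_add hT1 hT2) hT3
    _ = ((K + 18) / (K - 1)) * ((l + 1) / l) + (46 * K + 18) * (l + 1) ^ 5 / 2 ^ j := by ring
    _ ≤ ((K + 18) / (K - 1)) * ((l + 1) / l) + (46 * K + 18) * (K ^ 5 * (j + 1) ^ 5) / 2 ^ j := by
        gcongr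
    _ = _ := by
        push_cast
        rw [pow_succ 2 j]
        field_simp

/-- The ratio tends to one. -/
theorem tendsto_ratio :
    Tendsto (fun n : ℕ => (minRamsey n : ℝ) / (n / Real.logb 2 n)) atTop (nhds 1) := by
  have hlog : Tendsto (fun n : ℕ => Nat.log 2 n) atTop atTop := by
    rw [tendsto_atTop]
    intro b
    filter_upwards [eventually_ge_atTop (2 ^ b)] with n hn
    exact (Nat.le_log_iff_pow_le (by norm_num) (by
      have : 0 < 2 ^ b := by positivity
      omega)).2 hn
  rw [tendsto_order]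
  constructor
  · intro c hc
    have h1 : Tendsto (fun n : ℕ => ((n : ℝ) - 1) / n) atTop (nhds 1) := by
      have h2 : Tendsto (fun n : ℕ => 1 - 1 / (n : ℝ)) atTop (nhds (1 - 0)) :=
        tendsto_const_nhds.sub tendsto_one_div_atTop_nhds_zero_nat
      rw [sub_zero] at h2
      refine h2.congr' ?_
      filter_upwards [eventually_ge_atTop 1] with n hn
      have : (n : ℝ) ≠ 0 := by positivity
      field_simp
    filter_upwards [(tendsto_order.1 h1).1 c hc, eventually_ge_atTop 2] with n hn hn2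
    refine lt_of_lt_of_le hn ?_
    have h3 := le_minRamsey n hn2
    have hn1 : (1 : ℝ) < n := by exact_mod_cast (by omega : 1 < n)
    have hlogp : 0 < Real.logb 2 n := Real.logb_pos (by norm_num) hn1
    rw [div_le_iff₀ hlogp] at h3
    rw [div_div_eq_mul_div, div_le_div_iff_of_pos_right (by linarith)]
    exact h3
  · intro c hc
    -- choose `K`
    obtain ⟨K, hK2, hKc⟩ : ∃ K : ℕ, 2 ≤ K ∧ ((K : ℝ) + 18) / (K - 1) < c := by
      have h1 : Tendsto (fun K : ℕ => 1 + 19 / ((K : ℝ) - 1)) atTop (nhds (1 + 0)) := by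
        refine tendsto_const_nhds.add ?_
        refine Tendsto.div_atTop tendsto_const_nhds ?_
        exact tendsto_atTop_add_const_right _ (-1) tendsto_natCast_atTop_atTop
      rw [add_zero] at h1
      obtain ⟨K, hK⟩ := (((tendsto_order.1 h1).2 c hc).and (eventually_ge_atTop 2)).exists
      refine ⟨K, hK.2, ?_⟩
      have : (2 : ℝ) ≤ K := by exact_mod_cast hK.2
      have h2 : ((K : ℝ) + 18) / (K - 1) = 1 + 19 / ((K : ℝ) - 1) := by
        have : (K : ℝ) - 1 ≠ 0 := by linarith
        field_simp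
        ring
      rw [h2]
      exact hK.1
    have hT1 : Tendsto (fun l : ℕ => (((K : ℝ) + 18) / (K - 1)) * (((l : ℝ) + 1) / l)) atTop
        (nhds ((((K : ℝ) + 18) / (K - 1)) * 1)) := by
      refine tendsto_const_nhds.mul ?_
      have h2 : Tendsto (fun n : ℕ => 1 + 1 / (n : ℝ)) atTop (nhds (1 + 0)) :=
        tendsto_const_nhds.add tendsto_one_div_atTop_nhds_zero_nat
      rw [add_zero] at h2
      refine h2.congr' ?_
      filter_upwards [eventually_ge_atTop 1] with n hn
      have : (n : ℝ) ≠ 0 := by positivity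
      field_simp
    have hT2 : Tendsto (fun i : ℕ => (i : ℝ) ^ 5 / 2 ^ i) atTop (nhds 0) :=
      tendsto_pow_const_div_const_pow_of_one_lt 5 (by norm_num)
    have hT3 : Tendsto (fun l : ℕ => l / K + 1) atTop atTop := by
      exact (tendsto_add_atTop_nat 1).comp (Nat.tendsto_div_const_atTop (by omega))
    have hT4 : Tendsto (fun l : ℕ => (((K : ℝ) + 18) / (K - 1)) * (((l : ℝ) + 1) / l)
        + (2 * (46 * K + 18) * K ^ 5) * (((l / K + 1 : ℕ) : ℝ) ^ 5 / 2 ^ (l / K + 1))) atTop
        (nhds ((((K : ℝ) + 18) / (K - 1)) * 1 + (2 * (46 * K + 18) * K ^ 5) * 0)) :=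
      hT1.add (tendsto_const_nhds.mul (hT2.comp hT3))
    rw [mul_one, mul_zero, add_zero] at hT4
    have hT5 := hT4.comp hlog
    filter_upwards [(tendsto_order.1 hT5).2 c hKc, hlog.eventually (eventually_ge_atTop K)]
      with n hn hn2
    exact lt_of_le_of_lt (ratio_le K hK2 n hn2) hn

/-- The smallest diagonal Ramsey number of a graph with exactly `n` edges is asymptotically equal
to `n / log_2 n`. In particular a bound `R(n) ≤ C n ^ α` for all `n ≥ 1` holds for some constant
`C` if and only if `1 ≤ α`. -/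
theorem result :
    ((fun n : ℕ => (minRamsey n : ℝ)) ~[atTop] fun n : ℕ => (n : ℝ) / Real.logb 2 n) ∧
    ∀ α : ℝ, (∃ C : ℝ, ∀ n : ℕ, 1 ≤ n → (minRamsey n : ℝ) ≤ C * (n : ℝ) ^ α) ↔ 1 ≤ α := by
  have hlogpos : ∀ n : ℕ, 2 ≤ n → 0 < Real.logb 2 n := by
    intro n hn
    exact Real.logb_pos (by norm_num) (by exact_mod_cast (by omega : 1 < n))
  constructor
  · rw [isEquivalent_iff_tendsto_one]
    · exact tendsto_ratio
    · filter_upwards [eventually_ge_atTop 2] with n hn
      have := hlogpos n hn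
      have hn0 : (0 : ℝ) < n := by exact_mod_cast (by omega : 0 < n)
      positivity
  · intro α
    constructor
    · rintro ⟨C, hC⟩
      by_contra hα
      push Not at hα
      -- `n ^ (1 - α) ≤ 2 C log_2 n` fails for large `n`
      have h1 : Tendsto (fun n : ℕ => Real.logb 2 n / (n : ℝ) ^ (1 - α)) atTop (nhds 0) := by
        have h2 : Tendsto (fun x : ℝ => Real.log x / x ^ (1 - α)) atTop (nhds 0) :=
          (isLittleO_log_rpow_atTop (by linarith)).tendsto_div_nhds_zero
        have h3 := (h2.comp tendsto_natCast_atTop_atTop).div_const (Real.log 2)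
        rw [zero_div] at h3
        refine h3.congr (fun n => ?_)
        simp only [Function.comp, Real.logb]
        ring
      have hC' : 0 < |C| + 1 := by positivity
      have h2 := (tendsto_order.1 h1).2 (1 / (2 * (|C| + 1))) (by positivity)
      obtain ⟨n, hn, hn2⟩ := (h2.and (eventually_ge_atTop 2)).exists
      have hn0 : (2 : ℝ) ≤ n := by exact_mod_cast hn2
      have h3 := (le_minRamsey n hn2).trans (hC n (by omega))
      have h4 := hlogpos n hn2
      rw [div_le_iff₀ h4] at h3
      have hpα : (0 : ℝ) < (n : ℝ) ^ α := Real.rpow_pos_of_pos (by linarith) _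
      have hp1 : (0 : ℝ) < (n : ℝ) ^ (1 - α) := Real.rpow_pos_of_pos (by linarith) _
      rw [div_lt_div_iff₀ hp1 (by positivity)] at hn
      have h5 : (n : ℝ) = n ^ α * n ^ (1 - α) := by
        rw [← Real.rpow_add (by linarith)]
        simp
      have h6 : C * (n : ℝ) ^ α * Real.logb 2 n ≤ (|C| + 1) * (n : ℝ) ^ α * Real.logb 2 n := by
        have : C ≤ |C| + 1 := (le_abs_self C).trans (by linarith)
        gcongr
      have h7 : (n : ℝ) / 2 ≤ n - 1 := by linarith
      have h8 : (n : ℝ) / 2 ≤ (|C| + 1) * (n : ℝ) ^ α * Real.logb 2 n := by linarith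
      have h9 : (|C| + 1) * (n : ℝ) ^ α * Real.logb 2 n < n / 2 := by
        calc (|C| + 1) * (n : ℝ) ^ α * Real.logb 2 n
            = (Real.logb 2 n * (2 * (|C| + 1))) * (n : ℝ) ^ α / 2 := by ring
          _ < (1 * (n : ℝ) ^ (1 - α)) * (n : ℝ) ^ α / 2 := by gcongr
          _ = n / 2 := by rw [one_mul, mul_comm, ← h5]
      linarith
    · intro hα
      -- `R(n) ≤ C n`
      have h1 := (tendsto_order.1 tendsto_ratio).2 2 (by norm_num)
      obtain ⟨n₀, hn₀⟩ := eventually_atTop.1 (h1.and (eventually_ge_atTop 2))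
      refine ⟨2 + ∑ i ∈ range n₀, (minRamsey i : ℝ), fun n hn => ?_⟩
      have hn1 : (1 : ℝ) ≤ n := by exact_mod_cast hn
      have hnα : (n : ℝ) ≤ (n : ℝ) ^ α := by
        calc (n : ℝ) = (n : ℝ) ^ (1 : ℝ) := (Real.rpow_one _).symm
          _ ≤ _ := Real.rpow_le_rpow_of_exponent_le hn1 hα
      have hsum : (0 : ℝ) ≤ ∑ i ∈ range n₀, (minRamsey i : ℝ) :=
        sum_nonneg (fun i _ => Nat.cast_nonneg _)
      rcases lt_or_ge n n₀ with h | h
      · have h2 : (minRamsey n : ℝ) ≤ ∑ i ∈ range n₀, (minRamsey i : ℝ) :=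
          single_le_sum (f := fun i => (minRamsey i : ℝ)) (fun i _ => Nat.cast_nonneg _)
            (mem_range.2 h)
        nlinarith
      · obtain ⟨h2, h3⟩ := hn₀ n h
        have h4 := hlogpos n h3
        have h5 : (1 : ℝ) ≤ Real.logb 2 n := by
          rw [Real.le_logb_iff_rpow_le (by norm_num) (by linarith), Real.rpow_one]
          exact_mod_cast h3
        rw [div_lt_iff₀ (by positivity)] at h2
        have h6 : (n : ℝ) / Real.logb 2 n ≤ n := div_le_self (by linarith) h5
        nlinarith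

end Pool.Agent.Results.MP_9bed89_co.Asymptotics
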